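import Pool.Agent.H834.KJ.Pair
import Pool.Agent.H834.E.Act
import Pool.Agent.H422.HE.Hyper
import Pool.Graph.R_seed8.Helper386.D5V.Helper379_SFGal

/-!
# The Galois action and the rational points of a curve of genus two
-/

set_option autoImplicit false
set_option linter.unusedSectionVars false
set_option linter.unusedVariables false

namespace Pool.Agent.H834.KJ

open FF Polynomial Module Pool.Agent.Q70.CH Pool.Agent.Q70.KM Pool.Agent.H834.E

section

variable {k : Type} [Field k] [CharZero k] [IsAlgClosed k] {K : Type} [Field K] [Algebra k K]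
  [IsFF k K]

lemma tw_divZ (σ : k ≃+* k) (Φ : K ≃+* K)
    (hΦ : ∀ c : k, Φ (algebraMap k K c) = algebraMap k K (σ c)) (t : K) :
    (divisor k t).mapDomain (tw σ Φ hΦ) = divisor k (Φ.symm t) := by
  have hinj : Function.Injective (tw σ Φ hΦ) := by
    intro P P' h
    ext f
    have := congrArg (fun Q : Place k K => Q.ord (Φ.symm f)) h
    change P.ord (Φ (Φ.symm f)) = P'.ord (Φ (Φ.symm f)) at this
    rwa [Φ.apply_symm_apply] at this
  have hsurj : Function.Surjective (tw σ Φ hΦ) := by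
    intro P
    have hΦ' : ∀ c : k, Φ.symm (algebraMap k K c) = algebraMap k K (σ.symm c) := by
      intro c
      rw [RingEquiv.symm_apply_eq, hΦ]
      simp
    refine ⟨tw σ.symm Φ.symm hΦ' P, ?_⟩
    ext f
    change P.ord (Φ.symm (Φ f)) = P.ord f
    rw [Φ.symm_apply_apply]
  ext P
  obtain ⟨P, rfl⟩ := hsurj P
  rw [Finsupp.mapDomain_apply hinj, divisor_apply, divisor_apply]
  change _ = (P.ord (Φ (Φ.symm t)) : ℤ)
  rw [Φ.apply_symm_apply]

/-- the action on the divisor class group -/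
noncomputable def twZ (σ : k ≃+* k) (Φ : K ≃+* K)
    (hΦ : ∀ c : k, Φ (algebraMap k K c) = algebraMap k K (σ c)) : ClZ k K →+ ClZ k K :=
  QuotientAddGroup.map (prin k K) (prin k K)
    (Finsupp.mapDomain.addMonoidHom (tw σ Φ hΦ)) (by
      rintro _ ⟨t, ht, rfl⟩
      exact ⟨Φ.symm t, by simpa using ht, tw_divZ σ Φ hΦ t⟩)

lemma twZ_cz (σ : k ≃+* k) (Φ : K ≃+* K)
    (hΦ : ∀ c : k, Φ (algebraMap k K c) = algebraMap k K (σ c)) (D : Place k K →₀ ℤ) :
    twZ σ Φ hΦ (cz D) = cz (D.mapDomain (tw σ Φ hΦ)) := rfl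

lemma twZ_dz (σ : k ≃+* k) (Φ : K ≃+* K)
    (hΦ : ∀ c : k, Φ (algebraMap k K c) = algebraMap k K (σ c)) (O P : Place k K) :
    twZ σ Φ hΦ (dz O P) = dz (tw σ Φ hΦ O) (tw σ Φ hΦ P) := by
  unfold dz
  rw [map_sub, twZ_cz, twZ_cz, Finsupp.mapDomain_single, Finsupp.mapDomain_single]

namespace Crv

variable {f : k[X]} {x y : K} {σ : K ≃ₐ[k] K} {W : Place k K}

/-- The point `P` is `W` or has coordinates in `F`. -/
def Rational (x y : K) (W : Place k K) (F : IntermediateField ℚ k) (P : Place k K) : Prop :=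
  P = W ∨ ∃ a ∈ F, ∃ b ∈ F, At P x a ∧ At P y b

/-- The action of the Galois group. -/
theorem exists_act (E : Crv f x y σ W) (F : IntermediateField ℚ k) (hF : ∀ i, f.coeff i ∈ F)
    (τ : k ≃ₐ[F] k) : ∃ (T : Place k K → Place k K) (tQ : PicQ k K →ₗ[ℚ] PicQ k K)
      (tZ : ClZ k K →+ ClZ k K), T W = W ∧ (∀ P a, At P x a → At (T P) x (τ.symm a)) ∧
      (∀ P b, At P y b → At (T P) y (τ.symm b)) ∧ (∀ P, tQ (dif W P) = dif W (T P)) ∧
      (∀ P, tZ (dz W P) = dz W (T P)) ∧ ∀ D : Place k K →₀ ℤ, tZ (cz D) = cz (D.mapDomain T) := by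
  obtain ⟨Φ, h1, h2, h3⟩ := E.h.exists_semi E.sep E.deg (τ : k ≃+* k) (by
    ext i
    rw [coeff_map]
    exact τ.commutes ⟨f.coeff i, hF i⟩)
  set T := tw (τ : k ≃+* k) Φ h1 with hT
  have hTW : T W = W := by
    by_contra hne
    have h4 := ((T W).reg_iff E.x_ne).1 (E.reg _ hne)
    have h5 : (T W).ord x = W.ord (Φ x) := rfl
    rw [h5, h2, E.ox] at h4
    omega
  refine ⟨T, twP (τ : k ≃+* k) Φ h1, twZ (τ : k ≃+* k) Φ h1, hTW, ?_, ?_, ?_, ?_, ?_⟩
  · intro P a ha
    rw [hT, at_tw, h2]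
    have : (τ : k ≃+* k) (τ.symm a) = a := τ.apply_symm_apply a
    rw [this]
    exact ha
  · intro P b hb
    rw [hT, at_tw, h3]
    have : (τ : k ≃+* k) (τ.symm b) = b := τ.apply_symm_apply b
    rw [this]
    exact hb
  · intro P
    rw [twP_dif, ← hT, hTW]
  · intro P
    rw [twZ_dz, ← hT, hTW]
  · intro D
    rw [twZ_cz]

/-- The rational points are finite in number. -/
theorem rational_finite (E : Crv f x y σ W) (F : IntermediateField ℚ k) [FiniteDimensional ℚ F]
    (hF : ∀ i, f.coeff i ∈ F) : {P : Place k K | Rational x y W F P}.Finite := by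
  classical
  have hNF : NumberField F := ⟨⟩
  obtain ⟨g, hg⟩ : ∃ g : F[X], g.map (algebraMap F k) = f := by
    rw [← mem_lifts]
    rw [lifts_iff_coeff_lifts]
    intro i
    exact ⟨⟨f.coeff i, hF i⟩, rfl⟩
  have hsep : g.Separable := by
    rw [← separable_map (algebraMap F k), hg]
    exact E.sep
  have hdeg : 5 ≤ g.natDegree := by
    rw [← natDegree_map (algebraMap F k), hg, E.deg5]
  have hfin := Pool.Agent.H422.HE.hyper F hsep hdeg
  have hsub : {P : Place k K | Rational x y W F P} ⊆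
      {W} ∪ ⋃ a ∈ {a : F | ∃ b : F, b ^ 2 = g.eval a},
        ((E.h.zeros (algebraMap F k a)).choose : Set (Place k K)) := by
    rintro P (hP | ⟨a, ha, b, hb, h1, h2⟩)
    · left
      exact hP
    · right
      rw [Set.mem_iUnion₂]
      refine ⟨⟨a, ha⟩, ⟨⟨b, hb⟩, ?_⟩, ?_⟩
      · obtain ⟨b', hb', he⟩ := E.h.y_at h1
        rw [hb'.unique h2] at he
        apply (algebraMap F k).injective
        rw [map_pow, ← eval₂_at_apply, ← eval_map, hg]
        exact he
      · exact ((E.h.zeros (algebraMap F k ⟨a, ha⟩)).choose_spec.1 P).2 h1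
  exact ((Set.finite_singleton W).union (hfin.biUnion (fun a _ => Finset.finite_toSet _))).subset
    hsub

/-- A field of definition. -/
theorem exists_field [Algebra.IsAlgebraic ℚ k] (E : Crv f x y σ W) (S : Finset (Place k K)) :
    ∃ F : IntermediateField ℚ k, FiniteDimensional ℚ F ∧ (∀ i, f.coeff i ∈ F) ∧
      ∀ P ∈ S, Rational x y W F P := by
  classical
  let G : Set k := ((Finset.range 6).image f.coeff : Finset k) ∪
    (S.image (fun P => SF.val P x) ∪ S.image (fun P => SF.val P y) : Finset k)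
  have hGfin : G.Finite := (Finset.finite_toSet _).union (Finset.finite_toSet _)
  let F : IntermediateField ℚ k := IntermediateField.adjoin ℚ G
  have hFfin : FiniteDimensional ℚ F := by
    have : Finite G := hGfin.to_subtype
    exact IntermediateField.finiteDimensional_adjoin
      (fun z _ => (Algebra.IsAlgebraic.isAlgebraic z).isIntegral)
  refine ⟨F, hFfin, fun i => ?_, fun P hP => ?_⟩
  · by_cases hi : i < 6
    · refine IntermediateField.subset_adjoin _ _ (Or.inl ?_)
      rw [Finset.mem_coe]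
      exact Finset.mem_image_of_mem _ (Finset.mem_range.2 hi)
    · rw [coeff_eq_zero_of_natDegree_lt (by rw [E.deg5]; omega)]
      exact zero_mem F
  · rcases E.cases P with h | ⟨a, b, ha, hb, -⟩
    · exact Or.inl h
    · refine Or.inr ⟨SF.val P x, ?_, SF.val P y, ?_, ⟨ha.1, rfl⟩, ⟨hb.1, rfl⟩⟩
      · refine IntermediateField.subset_adjoin _ _ (Or.inr ?_)
        rw [Finset.mem_coe]
        exact Finset.mem_union_left _ (Finset.mem_image_of_mem (fun P => SF.val P x) hP)
      · refine IntermediateField.subset_adjoin _ _ (Or.inr ?_)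
        rw [Finset.mem_coe]
        exact Finset.mem_union_right _ (Finset.mem_image_of_mem (fun P => SF.val P y) hP)

/-- Rational points are fixed. -/
lemma fix_of_rational (E : Crv f x y σ W) {F : IntermediateField ℚ k} {τ : k ≃ₐ[F] k}
    {T : Place k K → Place k K} (hW : T W = W) (hx : ∀ P a, At P x a → At (T P) x (τ.symm a))
    (hy : ∀ P b, At P y b → At (T P) y (τ.symm b)) {P : Place k K} (hP : Rational x y W F P) :
    T P = P := by
  rcases hP with rfl | ⟨a, ha, b, hb, h1, h2⟩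
  · exact hW
  · have h3 := hx P a h1
    have h4 := hy P b h2
    have e1 : τ.symm a = a := τ.symm.commutes ⟨a, ha⟩
    have e2 : τ.symm b = b := τ.symm.commutes ⟨b, hb⟩
    rw [e1] at h3
    rw [e2] at h4
    exact E.ext h3 h4 h1 h2

/-- The other points are moved. -/
lemma exists_moved (E : Crv f x y σ W) {F : IntermediateField ℚ k} {P : Place k K}
    (hP : ¬ Rational x y W F P) : ∃ τ : k ≃ₐ[F] k, ∀ T : Place k K → Place k K,
      (∀ P a, At P x a → At (T P) x (τ.symm a)) → (∀ P b, At P y b → At (T P) y (τ.symm b)) →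
        T P ≠ P := by
  by_contra hc
  push Not at hc
  rcases E.cases P with h | ⟨a, b, ha, hb, -⟩
  · exact hP (Or.inl h)
  · have h1 : ∀ τ : k ≃ₐ[F] k, τ.symm a = a ∧ τ.symm b = b := by
      intro τ
      obtain ⟨T, h1, h2, h3⟩ := hc τ
      have h4 := h1 P a ha
      have h5 := h2 P b hb
      rw [h3] at h4 h5
      exact ⟨h4.unique ha, h5.unique hb⟩
    have h2 : ∀ τ : k ≃ₐ[F] k, τ a = a ∧ τ b = b := by
      intro τ
      have := h1 τ
      constructor
      · rw [← this.1, τ.apply_symm_apply, this.1]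
      · rw [← this.2, τ.apply_symm_apply, this.2]
    obtain ⟨c, hc⟩ := SF.mem_range_of_fixed (fun τ => (h2 τ).1)
    obtain ⟨d, hd⟩ := SF.mem_range_of_fixed (fun τ => (h2 τ).2)
    apply hP
    refine Or.inr ⟨a, ?_, b, ?_, ha, hb⟩
    · rw [← hc]
      exact c.2
    · rw [← hd]
      exact d.2

end Crv

end

end Pool.Agent.H834.KJ
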