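import Pool.Agent.H834.E.Cls

/-!
# Functions with poles at one Weierstrass point of a curve of genus two
-/

set_option autoImplicit false
set_option linter.unusedSectionVars false
set_option linter.unusedVariables false

namespace Pool.Agent.H834.KJ

open FF Polynomial Module Pool.Agent.Q70.CH Pool.Agent.Q70.KM Pool.Agent.H834.E

section

variable {k : Type} [Field k] [CharZero k] [IsAlgClosed k] {K : Type} [Field K] [Algebra k K]
  [IsFF k K]

/-- The function `u` has poles only at `W`. -/
def Aff (W : Place k K) (u : K) : Prop := ∀ P : Place k K, P ≠ W → P.Reg u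

lemma Aff.add {W : Place k K} {u v : K} (hu : Aff W u) (hv : Aff W v) : Aff W (u + v) :=
  fun P hP => P.reg_add (hu P hP) (hv P hP)

lemma Aff.mul {W : Place k K} {u v : K} (hu : Aff W u) (hv : Aff W v) : Aff W (u * v) :=
  fun P hP => P.reg_mul (hu P hP) (hv P hP)

lemma Aff.neg {W : Place k K} {u : K} (hu : Aff W u) : Aff W (-u) :=
  fun P hP => P.reg_neg (hu P hP)

lemma Aff.sub {W : Place k K} {u v : K} (hu : Aff W u) (hv : Aff W v) : Aff W (u - v) := by
  rw [sub_eq_add_neg]
  exact hu.add hv.neg

lemma aff_const (W : Place k K) (c : k) : Aff W (algebraMap k K c) := fun P _ => P.reg_const c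

lemma Aff.pow {W : Place k K} {u : K} (hu : Aff W u) (n : ℕ) : Aff W (u ^ n) := by
  induction n with
  | zero =>
    rw [pow_zero]
    exact fun P _ => P.reg_one
  | succ n ih => rw [pow_succ]; exact ih.mul hu

lemma Aff.aeval {W : Place k K} {u : K} (hu : Aff W u) (p : k[X]) : Aff W (aeval u p) := by
  induction p using Polynomial.induction_on' with
  | add p q hp hq => rw [map_add]; exact hp.add hq
  | monomial n r =>
    rw [aeval_monomial]
    exact (aff_const W r).mul (hu.pow n)

lemma mem_L {W : Place k K} {u : K} {n : ℤ} :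
    u ∈ LL (Finsupp.single W n) ↔ u = 0 ∨ (Aff W u ∧ -n ≤ W.ord u) := by
  classical
  rw [mem_LL]
  by_cases hu : u = 0
  · simp [hu]
  · simp only [hu, false_or]
    constructor
    · intro h
      refine ⟨fun P hP => Or.inr ?_, ?_⟩
      · have := h P
        rw [Finsupp.single_eq_of_ne hP] at this
        omega
      · have := h W
        rwa [Finsupp.single_eq_same] at this
    · rintro ⟨h1, h2⟩ P
      by_cases hP : P = W
      · subst hP
        rwa [Finsupp.single_eq_same]
      · rw [Finsupp.single_eq_of_ne hP]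
        have := (P.reg_iff hu).1 (h1 P hP)
        omega

lemma single_mono (W : Place k K) {m n : ℤ} (h : m ≤ n) :
    (Finsupp.single W m : Place k K →₀ ℤ) ≤ Finsupp.single W n := by
  classical
  intro P
  rw [Finsupp.single_apply, Finsupp.single_apply]
  split_ifs
  · exact h
  · exact le_refl _

lemma ddeg_W (W : Place k K) (n : ℤ) : ddeg (Finsupp.single W n) = n := by
  rw [ddeg_single, SF.deg_eq_one]
  simp

/-- a pole number increases the dimension -/
lemma ell_succ {W : Place k K} {n : ℤ} {u : K} (h0 : u ≠ 0) (h1 : Aff W u)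
    (h2 : W.ord u = -(n + 1)) :
    ell (Finsupp.single W n) + 1 ≤ ell (Finsupp.single W (n + 1)) := by
  have h3 : LL (Finsupp.single W n) < LL (Finsupp.single W (n + 1)) := by
    refine lt_of_le_of_ne (LL_mono (single_mono W (by omega))) ?_
    intro h
    have h4 : u ∈ LL (Finsupp.single W (n + 1)) := mem_L.2 (Or.inr ⟨h1, h2.ge⟩)
    rw [← h, mem_L] at h4
    have := (h4.resolve_left h0).2
    omega
  have h4 := Submodule.finrank_lt_finrank_of_lt h3
  unfold ell
  omega

/-- a gap does not -/
lemma ell_gap {W : Place k K} {n : ℤ} (h : ∀ u : K, Aff W u → W.ord u ≠ -(n + 1)) :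
    ell (Finsupp.single W (n + 1)) = ell (Finsupp.single W n) := by
  have h3 : LL (Finsupp.single W (n + 1)) = LL (Finsupp.single W n) := by
    apply le_antisymm
    · intro u hu
      rw [mem_L] at hu ⊢
      rcases hu with hu | ⟨h1, h2⟩
      · exact Or.inl hu
      · refine Or.inr ⟨h1, ?_⟩
        have := h u h1
        omega
    · exact LL_mono (single_mono W (by omega))
  unfold ell
  rw [h3]

lemma ell_zero_ge (W : Place k K) {n : ℤ} (hn : 0 ≤ n) : 1 ≤ ell (Finsupp.single W n) := by
  have h1 : (1 : K) ∈ LL (Finsupp.single W n) := mem_L.2 (Or.inr ⟨fun P _ => P.reg_one, by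
    rw [W.ord_one]
    omega⟩)
  have h2 : LL (Finsupp.single W n) ≠ ⊥ := by
    intro h
    rw [h, Submodule.mem_bot] at h1
    exact one_ne_zero h1
  have h3 := Submodule.one_le_finrank_iff.2 h2
  unfold ell
  omega

lemma ell_zero_le (W : Place k K) : ell (Finsupp.single W 0) ≤ 1 := by
  have h1 : ell (Finsupp.single W (-1)) = 0 := by
    unfold ell
    rw [LL_eq_bot (by rw [ddeg_W]; norm_num)]
    simp
  have h2 := ell_le (single_mono W (show (-1 : ℤ) ≤ 0 by norm_num))
  rw [h1, ddeg_W, ddeg_W] at h2
  omega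

/-- If all numbers above `m` are pole numbers then `ℓ(m W) < m`, for the genus two. -/
lemma ell_lt (hg : IsGenus k K 2) {W : Place k K} (m : ℕ)
    (h : ∀ n : ℕ, m ≤ n → ∃ u : K, u ≠ 0 ∧ Aff W u ∧ W.ord u = -((n : ℤ) + 1)) :
    ell (Finsupp.single W (m : ℤ)) < m := by
  have key : ∀ j : ℕ, ell (Finsupp.single W (m : ℤ)) + j ≤
      ell (Finsupp.single W ((m : ℤ) + j)) := by
    intro j
    induction j with
    | zero => simp
    | succ j ih =>
      obtain ⟨u, h0, h1, h2⟩ := h (m + j) (by omega)
      have h3 := ell_succ (n := (m : ℤ) + j) h0 h1 (by rw [h2]; push_cast; ring)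
      push_cast
      rw [← add_assoc ((m : ℤ)) (j : ℤ) 1]
      omega
  obtain ⟨N, hN⟩ := hg
  have h1 := hN (Finsupp.single W ((m : ℤ) + N.toNat)) (by
    rw [← ddeg_eq_sum, ddeg_W]
    have := Int.self_le_toNat N
    omega)
  rw [← ddeg_eq_sum, ddeg_W] at h1
  have h2 := key N.toNat
  unfold ell at h2 ⊢
  rw [h1] at h2
  push_cast at h2
  omega

/-- There is no function with a simple pole. -/
theorem no_one (hg : IsGenus k K 2) {W : Place k K} {u : K} (h1 : Aff W u) : W.ord u ≠ -1 := by
  intro h2
  have h0 : u ≠ 0 := by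
    rintro rfl
    rw [W.ord_zero] at h2
    omega
  have h3 := ell_lt hg (W := W) 0 (fun n _ => ⟨u ^ (n + 1), pow_ne_zero _ h0, h1.pow _, by
    rw [W.ord_pow, h2]
    push_cast
    ring⟩)
  have h4 := ell_zero_ge W (n := ((0 : ℕ) : ℤ)) (by simp)
  push_cast at h3 h4
  omega

/-- There is no function with a triple pole at a Weierstrass point. -/
theorem no_three (hg : IsGenus k K 2) {W : Place k K} {x : K} (hx : Aff W x) (ox : W.ord x = -2)
    {u : K} (h1 : Aff W u) : W.ord u ≠ -3 := by
  intro h2
  have h0 : u ≠ 0 := by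
    rintro rfl
    rw [W.ord_zero] at h2
    omega
  have hx0 : x ≠ 0 := by
    rintro rfl
    rw [W.ord_zero] at ox
    omega
  have h3 := ell_lt hg (W := W) 1 (fun n hn => by
    rcases Nat.even_or_odd n with he | ho
    · obtain ⟨i, hi⟩ : ∃ i, n = 2 * i + 2 := by
        obtain ⟨i, hi⟩ := he
        exact ⟨i - 1, by omega⟩
      refine ⟨x ^ i * u, mul_ne_zero (pow_ne_zero _ hx0) h0, (hx.pow i).mul h1, ?_⟩
      rw [W.ord_mul (pow_ne_zero _ hx0) h0, W.ord_pow, ox, h2, hi]
      push_cast
      ring
    · obtain ⟨i, hi⟩ := ho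
      refine ⟨x ^ (i + 1), pow_ne_zero _ hx0, hx.pow _, ?_⟩
      rw [W.ord_pow, ox, hi]
      push_cast
      ring)
  have h4 := ell_zero_ge W (n := ((1 : ℕ) : ℤ)) (by simp)
  push_cast at h3 h4
  omega

/-- There is a function with a pole of order five at a Weierstrass point. -/
theorem exists_five (hg : IsGenus k K 2) {W : Place k K} {x : K} (hx : Aff W x)
    (ox : W.ord x = -2) : ∃ u : K, Aff W u ∧ W.ord u = -5 := by
  by_contra hc
  push Not at hc
  have h5 : ell (Finsupp.single W (4 + 1 : ℤ)) = ell (Finsupp.single W (4 : ℤ)) :=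
    ell_gap (fun u hu => by
      have := hc u hu
      norm_num
      exact this)
  have h4 := ell_le (single_mono W (show (3 : ℤ) ≤ 4 by norm_num))
  have h3 : ell (Finsupp.single W (2 + 1 : ℤ)) = ell (Finsupp.single W (2 : ℤ)) :=
    ell_gap (fun u hu => by
      have := no_three hg hx ox hu
      norm_num
      exact this)
  have h2 := ell_le (single_mono W (show (1 : ℤ) ≤ 2 by norm_num))
  have h1 : ell (Finsupp.single W (0 + 1 : ℤ)) = ell (Finsupp.single W (0 : ℤ)) :=
    ell_gap (fun u hu => by
      have := no_one hg hu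
      norm_num
      exact this)
  have h0 := ell_zero_le W
  rw [Finsupp.single_zero] at h0
  have h6 := riemann_ineq hg (Finsupp.single W (4 + 1 : ℤ))
  norm_num at h1 h3 h5
  rw [ddeg_W] at h6
  rw [ddeg_W, ddeg_W] at h4 h2
  norm_num at h6
  omega

/-- A function without poles is constant. -/
lemma const_of_reg {W : Place k K} {u : K} (h1 : Aff W u) (h2 : u = 0 ∨ 0 ≤ W.ord u) :
    ∃ c : k, u = algebraMap k K c := by
  obtain ⟨c, hc⟩ := exists_at (P := W) (f := u) h2
  refine ⟨c, ?_⟩
  rcases at_iff.1 hc with h | h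
  · exact h
  · exfalso
    have h3 : u - algebraMap k K c ≠ 0 := by
      intro h4
      rw [h4, W.ord_zero] at h
      omega
    have h4 : u - algebraMap k K c ∈ LL (Finsupp.single W (-1)) :=
      mem_L.2 (Or.inr ⟨h1.sub (aff_const W c), by omega⟩)
    rw [LL_eq_bot (by rw [ddeg_W]; norm_num), Submodule.mem_bot] at h4
    exact h3 h4

/-- The functions with poles at `W` only are the `A(x) + B(x) y`. -/
theorem repr (hg : IsGenus k K 2) {W : Place k K} {x y : K} (hx : Aff W x) (ox : W.ord x = -2)
    (hy : Aff W y) (oy : W.ord y = -5) {u : K} (hu : Aff W u) :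
    ∃ A B : k[X], u = aeval x A + aeval x B * y := by
  have hx0 : x ≠ 0 := by
    rintro rfl
    rw [W.ord_zero] at ox
    omega
  have hy0 : y ≠ 0 := by
    rintro rfl
    rw [W.ord_zero] at oy
    omega
  have key : ∀ n : ℕ, ∀ u : K, Aff W u → (u = 0 ∨ -(n : ℤ) ≤ W.ord u) →
      ∃ A B : k[X], u = aeval x A + aeval x B * y := by
    intro n
    induction n with
    | zero =>
      intro u h1 h2
      obtain ⟨c, rfl⟩ := const_of_reg h1 (by simpa using h2)
      exact ⟨C c, 0, by simp⟩
    | succ n ih =>
      intro u h1 h2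
      by_cases h3 : u = 0 ∨ -(n : ℤ) ≤ W.ord u
      · exact ih u h1 h3
      push Not at h3
      obtain ⟨h0, h3⟩ := h3
      have h4 : W.ord u = -((n : ℤ) + 1) := by
        have := h2.resolve_left h0
        push_cast at this
        omega
      have hn1 : n ≠ 0 := by
        rintro rfl
        exact no_one hg h1 (by rw [h4]; norm_num)
      have hn3 : n ≠ 2 := by
        rintro rfl
        exact no_three hg hx ox h1 (by rw [h4]; norm_num)
      -- the monomial
      obtain ⟨A, B, hm⟩ : ∃ A B : k[X], aeval x A + aeval x B * y ≠ 0 ∧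
          W.ord (aeval x A + aeval x B * y) = -((n : ℤ) + 1) := by
        rcases Nat.even_or_odd n with he | ho
        · obtain ⟨i, hi⟩ : ∃ i, n = 2 * i + 4 := by
            obtain ⟨i, hi⟩ := he
            exact ⟨i - 2, by omega⟩
          refine ⟨0, X ^ i, ?_⟩
          rw [map_zero, zero_add, map_pow, aeval_X]
          refine ⟨mul_ne_zero (pow_ne_zero _ hx0) hy0, ?_⟩
          rw [W.ord_mul (pow_ne_zero _ hx0) hy0, W.ord_pow, ox, oy, hi]
          push_cast
          ring
        · obtain ⟨i, hi⟩ := ho
          refine ⟨X ^ (i + 1), 0, ?_⟩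
          rw [map_zero, zero_mul, add_zero, map_pow, aeval_X]
          refine ⟨pow_ne_zero _ hx0, ?_⟩
          rw [W.ord_pow, ox, hi]
          push_cast
          ring
      obtain ⟨hm0, hm⟩ := hm
      set m := aeval x A + aeval x B * y with hmdef
      have hmA : Aff W m := (hx.aeval A).add ((hx.aeval B).mul hy)
      have hq : W.ord (u / m) = 0 := by
        rw [W.ord_div h0 hm0, h4, hm]
        ring
      obtain ⟨c, hc⟩ := exists_at (P := W) (f := u / m) (Or.inr hq.ge)
      have h5 : u - algebraMap k K c * m = 0 ∨ -(n : ℤ) ≤ W.ord (u - algebraMap k K c * m) := by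
        have e : u - algebraMap k K c * m = (u / m - algebraMap k K c) * m := by
          field_simp
        rcases at_iff.1 hc with h | h
        · left
          rw [e, h, sub_self, zero_mul]
        · right
          have h6 : u / m - algebraMap k K c ≠ 0 := by
            intro h7
            rw [h7, W.ord_zero] at h
            omega
          rw [e, W.ord_mul h6 hm0, hm]
          omega
      obtain ⟨A', B', h6⟩ := ih _ (h1.sub ((aff_const W c).mul hmA)) h5
      refine ⟨A' + C c * A, B' + C c * B, ?_⟩
      rw [map_add, map_add, map_mul, map_mul, aeval_C]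
      rw [hmdef] at h6
      linear_combination h6
  exact key (-W.ord u).toNat u hu (Or.inr (by
    have := Int.self_le_toNat (-W.ord u)
    omega))

end

end Pool.Agent.H834.KJ
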