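import Pool.Agent.H834.KJ.Act
import Pool.Agent.H834.E.Main

/-!
# Midpoints on the Jacobian of a curve of genus two
-/

set_option autoImplicit false
set_option linter.unusedSectionVars false
set_option linter.unusedVariables false

namespace Pool.Agent.H834.KJ

open FF Polynomial Module Pool.Agent.Q70.CH Pool.Agent.Q70.KM Pool.Agent.H834.E

/-- The classes `β` such that `α + β` and `α - β` are rational multiples of classes `P - W`, with
points `P` of the curve. -/
def Mid {k : Type} [Field k] [CharZero k] {K : Type} [Field K] [Algebra k K] (W : Place k K)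
    (α : PicQ k K) : Set (PicQ k K) :=
  {β | (∃ (c : ℚ) (P : Place k K), α + β = c • dif W P) ∧
    ∃ (c : ℚ) (P : Place k K), α - β = c • dif W P}

section

variable {k : Type} [Field k] [CharZero k] [IsAlgClosed k] {K : Type} [Field K] [Algebra k K]
  [IsFF k K]

/-- `α` is the midpoint of two points of the Jacobian whose images in the Kummer surface lie on
rational curves. -/
theorem bil_of_mid {σ : K ≃ₐ[k] K} {W : Place k K} (h : Hyperelliptic σ W) {α β : PicQ k K}
    (hβ : β ∈ Mid W α) : bil σ W α β = 0 ∧ bil σ W β β = - bil σ W α α := by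
  obtain ⟨⟨c, P, h1⟩, d, Q, h2⟩ := hβ
  have h3 : bil σ W (α + β) (α + β) = 0 := by
    rw [h1, map_smul, map_smul, LinearMap.smul_apply, bil_self h, smul_zero, smul_zero]
  have h4 : bil σ W (α - β) (α - β) = 0 := by
    rw [h2, map_smul, map_smul, LinearMap.smul_apply, bil_self h, smul_zero, smul_zero]
  rw [map_add, map_add, LinearMap.add_apply, LinearMap.add_apply, bil_symm σ W β α] at h3
  rw [map_sub, map_sub, LinearMap.sub_apply, LinearMap.sub_apply, bil_symm σ W β α] at h4
  have h5 : (4 : ℚ) • bil σ W α β = 0 := by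
    have : (4 : ℚ) • bil σ W α β = (bil σ W α α + bil σ W α β + (bil σ W α β + bil σ W β β)) -
        (bil σ W α α - bil σ W α β - (bil σ W α β - bil σ W β β)) := by module
    rw [this, h3, h4, sub_zero]
  have h6 : bil σ W α β = 0 := (smul_eq_zero.1 h5).resolve_left (by norm_num)
  refine ⟨h6, ?_⟩
  rw [h6, add_zero, zero_add] at h3
  exact (eq_neg_of_add_eq_zero_right h3)

lemma clear_denom {A : Type} (v : A →₀ ℚ) :
    ∃ N : ℕ, 0 < N ∧ ∃ D : A →₀ ℤ, ∀ a, (N : ℚ) * v a = D a := by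
  classical
  induction v using Finsupp.induction_linear with
  | zero => exact ⟨1, one_pos, 0, fun a => by simp⟩
  | add v w hv hw =>
    obtain ⟨N, hN, D, hD⟩ := hv
    obtain ⟨M, hM, D', hD'⟩ := hw
    refine ⟨N * M, Nat.mul_pos hN hM, (M : ℤ) • D + (N : ℤ) • D', fun a => ?_⟩
    rw [Finsupp.add_apply, Finsupp.add_apply, Finsupp.smul_apply, Finsupp.smul_apply]
    push_cast
    rw [smul_eq_mul, smul_eq_mul]
    push_cast
    rw [← hD a, ← hD' a]
    ring
  | single b c =>
    refine ⟨c.den, c.pos, Finsupp.single b c.num, fun a => ?_⟩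
    rw [Finsupp.single_apply, Finsupp.single_apply]
    split_ifs
    · exact Rat.den_mul_eq_num c
    · simp

/-- **Main theorem.** -/
theorem main [Algebra.IsAlgebraic ℚ k] (hg : IsGenus k K 2) {σ : K ≃ₐ[k] K} {W : Place k K}
    (hσ : Hyperelliptic σ W) {α : PicQ k K} (hα : α ∈ Pic0 k K) (hα0 : α ≠ 0)
    (hX : {P : Place k K | ∃ c : ℚ, c ≠ 0 ∧ dif W P = c • α}.Finite) :
    ¬ FiniteDimensional ℚ (Submodule.span ℚ (Mid W α)) := by
  classical
  intro hfin
  obtain ⟨f, x, y, E⟩ := exists_crv hg hσ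
  obtain ⟨v, hv, rfl⟩ := hα
  obtain ⟨N, hN, D, hD⟩ := clear_denom v
  have hNQ : (N : ℚ) ≠ 0 := Nat.cast_ne_zero.2 hN.ne'
  have hvD : (N : ℚ) • v = castF D := by
    ext P
    exact hD P
  have hdg : dg (castF D) = (ddeg D : ℚ) := by
    rw [dg_eq, ddeg_eq_sum]
    unfold castF
    rw [Finsupp.mapRange.addMonoidHom_apply, Finsupp.sum_mapRange_index (fun _ => rfl)]
    unfold Finsupp.sum
    push_cast
    rfl
  have hD0 : ddeg D = 0 := by
    have h1 : dg v = 0 := hv
    rw [← hvD, map_smul, h1, smul_zero] at hdg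
    exact_mod_cast hdg.symm
  have htoQ : toQ (cz D) = (N : ℚ) • (mkP v : PicQ k K) := by
    rw [toQ_cz, ← hvD, map_smul]
  have htors : ∀ n : ℕ, n ≠ 0 → n • cz D ≠ 0 := by
    intro n hn h0
    have h1 := congrArg (toQ (k := k) (K := K)) h0
    rw [map_nsmul, map_zero, htoQ, ← Nat.cast_smul_eq_nsmul ℚ, smul_smul] at h1
    exact hα0 ((smul_eq_zero.1 h1).resolve_left
      (mul_ne_zero (Nat.cast_ne_zero.2 hn) hNQ))
  have hex : ∀ n : ℕ, ∃ P Q : Place k K, (n + 1) • cz D = dz W P + dz W Q := by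
    intro n
    obtain ⟨P, Q, h1⟩ := exists_pair hg W (D := (n + 1) • D) (by
      rw [ddeg_nsmul, hD0, mul_zero])
    exact ⟨P, Q, by rw [← h1, map_nsmul]⟩
  choose P Q hPQ using hex
  have hPQ' : ∀ n : ℕ, (((n : ℚ) + 1) * N) • (mkP v : PicQ k K) = dif W (P n) + dif W (Q n) := by
    intro n
    have h1 := congrArg (toQ (k := k) (K := K)) (hPQ n)
    rw [map_nsmul, map_add, toQ_dz, toQ_dz, htoQ, ← Nat.cast_smul_eq_nsmul ℚ, smul_smul] at h1
    push_cast at h1
    exact h1
  have hnN : ∀ n : ℕ, ((n : ℚ) + 1) * N ≠ 0 := fun n =>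
    mul_ne_zero (by positivity) hNQ
  set β : ℕ → PicQ k K := fun n => (((n : ℚ) + 1) * N)⁻¹ • (dif W (P n) - dif W (Q n)) with hβ
  have hplus : ∀ n, mkP v + β n = ((((n : ℚ) + 1) * N)⁻¹ * 2) • dif W (P n) := by
    intro n
    have h1 : (mkP v : PicQ k K) = (((n : ℚ) + 1) * N)⁻¹ • (dif W (P n) + dif W (Q n)) := by
      rw [← hPQ' n, smul_smul, inv_mul_cancel₀ (hnN n), one_smul]
    rw [h1, hβ]
    module
  have hminus : ∀ n, mkP v - β n = ((((n : ℚ) + 1) * N)⁻¹ * 2) • dif W (Q n) := by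
    intro n
    have h1 : (mkP v : PicQ k K) = (((n : ℚ) + 1) * N)⁻¹ • (dif W (P n) + dif W (Q n)) := by
      rw [← hPQ' n, smul_smul, inv_mul_cancel₀ (hnN n), one_smul]
    rw [h1, hβ]
    module
  have hmem : ∀ n, β n ∈ Mid W (mkP v : PicQ k K) := fun n =>
    ⟨⟨_, _, hplus n⟩, ⟨_, _, hminus n⟩⟩
  -- a finite generating subset
  have hle : Submodule.span ℚ (Set.range β) ≤ Submodule.span ℚ (Mid W (mkP v : PicQ k K)) := by
    apply Submodule.span_mono
    rintro _ ⟨i, rfl⟩
    exact hmem i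
  have hfg : (Submodule.span ℚ (Set.range β)).FG := by
    have := Submodule.finiteDimensional_of_le hle
    exact (Submodule.fg_iff_finiteDimensional _).2 this
  obtain ⟨s, hs1, hs2⟩ := (Submodule.fg_span_iff_fg_span_finset_subset _).1 hfg
  choose! idx hidx using fun z (hz : z ∈ (s : Set (PicQ k K))) => hs1 hz
  obtain ⟨F, hFfin, hF, hFP⟩ := E.exists_field
    (D.support ∪ (s.image (fun z => P (idx z)) ∪ s.image (fun z => Q (idx z))))
  have hrat := E.rational_finite F hF
  -- the Galois action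
  have hgal : ∀ (τ : k ≃ₐ[F] k), ∃ T : Place k K → Place k K, T W = W ∧
      (∀ P a, At P x a → At (T P) x (τ.symm a)) ∧ (∀ P b, At P y b → At (T P) y (τ.symm b)) ∧
      ∀ n, (T (P n) = P n ∧ T (Q n) = Q n) ∨
        (P n ∈ {P : Place k K | ∃ c : ℚ, c ≠ 0 ∧ dif W P = c • (mkP v : PicQ k K)} ∧
          Q n ∈ {P : Place k K | ∃ c : ℚ, c ≠ 0 ∧ dif W P = c • (mkP v : PicQ k K)}) := by
    intro τ
    obtain ⟨T, tQ, tZ, hTW, hTx, hTy, htQ, htZ, htD⟩ := E.exists_act F hF τ
    refine ⟨T, hTW, hTx, hTy, ?_⟩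
    have hfix : ∀ R ∈ D.support ∪ (s.image (fun z => P (idx z)) ∪
        s.image (fun z => Q (idx z))), T R = R := fun R hR =>
      E.fix_of_rational hTW hTx hTy (hFP R hR)
    have hTD : D.mapDomain T = D := by
      rw [Finsupp.mapDomain_congr (g := id) (fun R hR => hfix R (Finset.mem_union_left _ hR)),
        Finsupp.mapDomain_id]
    have hβs : ∀ z ∈ (s : Set (PicQ k K)), tQ z = (LinearMap.id : PicQ k K →ₗ[ℚ] PicQ k K) z := by
      intro z hz
      rw [← hidx z hz]
      change tQ (β (idx z)) = β (idx z)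
      rw [hβ]
      change tQ (_ • (dif W (P (idx z)) - dif W (Q (idx z)))) = _
      rw [map_smul, map_sub, htQ, htQ, hfix (P (idx z)) (Finset.mem_union_right _
        (Finset.mem_union_left _ (Finset.mem_image_of_mem (fun z => P (idx z)) hz))),
        hfix (Q (idx z)) (Finset.mem_union_right _
        (Finset.mem_union_right _ (Finset.mem_image_of_mem (fun z => Q (idx z)) hz)))]
    have hall : ∀ i, tQ (β i) = β i := by
      intro i
      have h4 : β i ∈ Submodule.span ℚ (s : Set (PicQ k K)) := by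
        rw [← hs2]
        exact Submodule.subset_span ⟨i, rfl⟩
      exact LinearMap.eqOn_span (f := tQ) (g := (LinearMap.id : PicQ k K →ₗ[ℚ] PicQ k K)) hβs h4
    intro n
    have h1 : dz W (P n) + dz W (Q n) = dz W (T (P n)) + dz W (T (Q n)) := by
      rw [← htZ, ← htZ, ← map_add, ← hPQ n, map_nsmul, htD, hTD]
    rcases E.pair_unique h1 (by rw [← hPQ n]; exact htors _ (Nat.succ_ne_zero n)) with h2 | h2
    · exact Or.inl ⟨h2.1.symm, h2.2.symm⟩
    · right
      have h3 := hall n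
      rw [hβ] at h3
      change tQ (_ • (dif W (P n) - dif W (Q n))) = _ • (dif W (P n) - dif W (Q n)) at h3
      rw [map_smul, map_sub, htQ, htQ, ← h2.1, ← h2.2] at h3
      have h4 := smul_right_injective _ (inv_ne_zero (hnN n)) h3
      have h5 : (2 : ℚ) • (dif W (P n) - dif W (Q n)) = 0 := by
        have h6 : dif W (P n) - dif W (Q n) = dif W (Q n) - dif W (P n) := h4.symm
        rw [two_smul]
        nth_rewrite 1 [h6]
        abel
      have h6 : β n = 0 := by
        rw [hβ]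
        change _ • (dif W (P n) - dif W (Q n)) = 0
        rw [(smul_eq_zero.1 h5).resolve_left two_ne_zero, smul_zero]
      have h7 := hplus n
      have h8 := hminus n
      rw [h6, add_zero] at h7
      rw [h6, sub_zero] at h8
      have h9 : (((n : ℚ) + 1) * N)⁻¹ * 2 ≠ 0 := mul_ne_zero (inv_ne_zero (hnN n)) two_ne_zero
      refine ⟨⟨_, inv_ne_zero h9, ?_⟩, ⟨_, inv_ne_zero h9, ?_⟩⟩
      · rw [h7, smul_smul, inv_mul_cancel₀ h9, one_smul]
      · rw [h8, smul_smul, inv_mul_cancel₀ h9, one_smul]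
  have hrat' : ∀ n, (Crv.Rational x y W F (P n) ∧ Crv.Rational x y W F (Q n)) ∨
        (P n ∈ {P : Place k K | ∃ c : ℚ, c ≠ 0 ∧ dif W P = c • (mkP v : PicQ k K)} ∧
          Q n ∈ {P : Place k K | ∃ c : ℚ, c ≠ 0 ∧ dif W P = c • (mkP v : PicQ k K)}) := by
    intro n
    by_cases hcP : Crv.Rational x y W F (P n)
    · by_cases hcQ : Crv.Rational x y W F (Q n)
      · exact Or.inl ⟨hcP, hcQ⟩
      · obtain ⟨τ, hτ⟩ := E.exists_moved hcQ
        obtain ⟨T, h1, h2, h3, h4⟩ := hgal τ
        exact Or.inr ((h4 n).resolve_left (fun h5 => hτ T h2 h3 h5.2))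
    · obtain ⟨τ, hτ⟩ := E.exists_moved hcP
      obtain ⟨T, h1, h2, h3, h4⟩ := hgal τ
      exact Or.inr ((h4 n).resolve_left (fun h5 => hτ T h2 h3 h5.1))
  have hinj : Function.Injective (fun n => (P n, Q n)) := by
    intro n m hnm
    have h1 : P n = P m := congrArg Prod.fst hnm
    have h2 : Q n = Q m := congrArg Prod.snd hnm
    have h3 : (n + 1) • cz D = (m + 1) • cz D := by rw [hPQ n, hPQ m, h1, h2]
    by_contra hne
    rcases lt_or_gt_of_ne hne with h4 | h4
    · obtain ⟨j, rfl⟩ := Nat.exists_eq_add_of_lt h4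
      apply htors (j + 1) (Nat.succ_ne_zero j)
      have h5 : (n + j + 1 + 1) • cz D = (n + 1) • cz D + (j + 1) • cz D := by
        rw [← add_smul]
        congr 1
        omega
      rw [h5] at h3
      exact (add_eq_left.1 h3.symm)
    · obtain ⟨j, rfl⟩ := Nat.exists_eq_add_of_lt h4
      apply htors (j + 1) (Nat.succ_ne_zero j)
      have h5 : (m + j + 1 + 1) • cz D = (m + 1) • cz D + (j + 1) • cz D := by
        rw [← add_smul]
        congr 1
        omega
      rw [h5] at h3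
      exact (add_eq_left.1 h3)
  exact Set.infinite_range_of_injective hinj (((hrat.prod hrat).union (hX.prod hX)).subset (by
    rintro _ ⟨n, rfl⟩
    rcases hrat' n with h1 | h1
    · exact Or.inl ⟨h1.1, h1.2⟩
    · exact Or.inr ⟨h1.1, h1.2⟩))

lemma mid_sub {W : Place k K} {α : PicQ k K} : Mid W α ⊆ (Pic0 k K : Set (PicQ k K)) := by
  rintro β ⟨⟨c, P, h1⟩, d, Q, h2⟩
  have h3 : β = (2 : ℚ)⁻¹ • (c • dif W P - d • dif W Q) := by
    rw [← h1, ← h2]
    module
  rw [h3]
  exact Submodule.smul_mem _ _ (sub_mem (Submodule.smul_mem _ _ (dif_mem W P))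
    (Submodule.smul_mem _ _ (dif_mem W Q)))

end

end Pool.Agent.H834.KJ
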