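import Pool.Agent.H834.KJ.Gap

/-!
# The equation `y² = f(x)` of a curve of genus two
-/

set_option autoImplicit false
set_option linter.unusedSectionVars false
set_option linter.unusedVariables false

namespace Pool.Agent.H834.KJ

open FF Polynomial Module Pool.Agent.Q70.CH Pool.Agent.Q70.KM Pool.Agent.H834.E

section

variable {k : Type} [Field k] [CharZero k] [IsAlgClosed k] {K : Type} [Field K] [Algebra k K]
  [IsFF k K]

/-- The curve `y² = f(x)`, `f` separable of degree five, its involution and the point `W` over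
`x = ∞`. -/
structure Crv (f : k[X]) (x y : K) (σ : K ≃ₐ[k] K) (W : Place k K) : Prop where
  h : Dbl k f x y
  sep : f.Separable
  deg5 : f.natDegree = 5
  sx : σ x = x
  sy : σ y = -y
  ox : W.ord x = -2
  oy : W.ord y = -5
  reg : Aff W x
  int : ∀ u : K, Aff W u → ∃ A B : k[X], u = aeval x A + aeval x B * y

lemma ne_zero_of_ord {P : Place k K} {u : K} (h : P.ord u ≠ 0) : u ≠ 0 := by
  rintro rfl
  exact h P.ord_zero

lemma tr_of_ord {W : Place k K} {x : K} (ox : W.ord x = -2) : Transcendental k x :=
  W.transcendental_of_ord_ne (by omega)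

lemma sub_ne {W : Place k K} {x : K} (ox : W.ord x = -2) (a : k) :
    x - algebraMap k K a ≠ 0 := by
  intro h6
  exact tr_sub (tr_of_ord ox) a (h6 ▸ isAlgebraic_zero)

lemma aeval_ne_zero {W : Place k K} {x : K} (ox : W.ord x = -2) {p : k[X]} (hp : p ≠ 0) :
    aeval x p ≠ 0 := fun h0 => tr_of_ord ox ⟨p, hp, h0⟩

lemma ord_aeval {W : Place k K} {x : K} (ox : W.ord x = -2) {p : k[X]} (hp : p ≠ 0) :
    W.ord (aeval x p) = -2 * p.natDegree := by
  have key : ∀ n : ℕ, ∀ p : k[X], p ≠ 0 → p.natDegree = n → W.ord (aeval x p) = -2 * n := by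
    intro n
    induction n with
    | zero =>
      intro p hp hn
      obtain ⟨c, rfl⟩ := natDegree_eq_zero.1 hn
      rw [aeval_C, W.ord_const (by rintro rfl; exact hp C_0)]
      norm_num
    | succ n ih =>
      intro p hp hn
      obtain ⟨a, ha⟩ : ∃ a, p.IsRoot a := by
        apply IsAlgClosed.exists_root
        intro h0
        have := natDegree_eq_zero_iff_degree_le_zero.2 h0.le
        omega
      obtain ⟨p', rfl⟩ := dvd_iff_isRoot.2 ha
      have hp' : p' ≠ 0 := right_ne_zero_of_mul hp
      rw [natDegree_mul (X_sub_C_ne_zero a) hp', natDegree_X_sub_C] at hn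
      rw [map_mul, map_sub, aeval_X, aeval_C, W.ord_mul (sub_ne ox a) (aeval_ne_zero ox hp'),
        ih p' hp' (by omega),
        (ord_sub_const (P := W) (x := x) (by rw [ox]; omega) a).2, ox]
      push_cast
      ring
  exact key _ p hp rfl

/-- The functions with at most a double pole at a Weierstrass point. -/
lemma two (hg : IsGenus k K 2) {W : Place k K} {x : K} (hx : Aff W x) (ox : W.ord x = -2)
    {u : K} (hu : Aff W u) (h : u = 0 ∨ -2 ≤ W.ord u) :
    ∃ a b : k, u = algebraMap k K a * x + algebraMap k K b := by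
  have hx0 := ne_zero_of_ord (P := W) (u := x) (by omega)
  have h1 : W.Reg (u / x) := by
    rcases h with h | h
    · left; rw [h, zero_div]
    · by_cases hu0 : u = 0
      · left; rw [hu0, zero_div]
      · right
        rw [W.ord_div hu0 hx0, ox]
        omega
  obtain ⟨a, ha⟩ := exists_at h1
  have h2 : Aff W (u - algebraMap k K a * x) := hu.sub ((aff_const W a).mul hx)
  have e : u - algebraMap k K a * x = (u / x - algebraMap k K a) * x := by
    field_simp
  obtain ⟨b, hb⟩ := const_of_reg h2 (by
    by_cases h3 : u - algebraMap k K a * x = 0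
    · exact Or.inl h3
    · right
      have h4 := no_one hg h2
      rcases at_iff.1 ha with h5 | h5
      · exact absurd (by rw [e, h5, sub_self, zero_mul]) h3
      · have h6 : u / x - algebraMap k K a ≠ 0 := ne_zero_of_ord (P := W) (by omega)
        rw [e, W.ord_mul h6 hx0, ox] at h4 ⊢
        omega)
  exact ⟨a, b, by linear_combination hb⟩

/-- Existence of another point. -/
lemma exists_ne (W : Place k K) : ∃ P : Place k K, P ≠ W := by
  obtain ⟨f, hf⟩ := IsFF.exists_transcendental (k := k) (K := K)
  obtain ⟨S, h1, -, h3⟩ := FF.zeros hf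
  obtain ⟨T, h4, h6⟩ := FF.poles hf
  have := IsFF.finite hf
  have hpos : 0 < finrank (IntermediateField.adjoin k {f}) K := finrank_pos
  obtain ⟨P, hP⟩ : S.Nonempty := by
    rw [Finset.nonempty_iff_ne_empty]
    rintro rfl
    rw [Finset.sum_empty] at h3
    omega
  obtain ⟨Q, hQ⟩ : T.Nonempty := by
    rw [Finset.nonempty_iff_ne_empty]
    rintro rfl
    rw [Finset.sum_empty] at h6
    omega
  have h7 := (h1 P).1 hP
  have h8 := (h4 Q).1 hQ
  by_cases hPW : P = W
  · refine ⟨Q, ?_⟩
    rintro rfl
    rw [hPW] at h7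
    omega
  · exact ⟨P, hPW⟩

lemma comp_W {σ : K ≃ₐ[k] K} {W : Place k K} (hg : IsGenus k K 2) (h : Hyperelliptic σ W) :
    W.comp σ = W := by
  classical
  obtain ⟨t, ht, hd⟩ := h W
  have h1 : ∀ Q : Place k K, Q.ord t = (if W = Q then 1 else 0) +
      (if W.comp σ = Q then 1 else 0) - (if W = Q then 2 else 0) := by
    intro Q
    rw [← divisor_apply, hd, Finsupp.sub_apply, Finsupp.add_apply, Finsupp.single_apply,
      Finsupp.single_apply, Finsupp.single_apply]
  by_contra hne
  refine no_one hg (W := W) (u := t) (fun P hP => Or.inr ?_) ?_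
  · rw [h1 P, if_neg (Ne.symm hP), if_neg (Ne.symm hP)]
    split_ifs <;> norm_num
  · rw [h1 W, if_pos rfl, if_pos rfl, if_neg hne]
    norm_num

/-- the function with divisor `P + σ P - 2 W` -/
lemma exists_t {σ : K ≃ₐ[k] K} {W : Place k K} (hg : IsGenus k K 2) (h : Hyperelliptic σ W)
    {P : Place k K} (hP : P ≠ W) :
    ∃ t : K, Aff W t ∧ W.ord t = -2 ∧ (∀ Q : Place k K, At Q t 0 ↔ (Q = P ∨ Q = P.comp σ)) := by
  classical
  obtain ⟨t, ht, hd⟩ := h P
  have h1 : ∀ Q : Place k K, Q.ord t = (if P = Q then 1 else 0) +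
      (if P.comp σ = Q then 1 else 0) - (if W = Q then 2 else 0) := by
    intro Q
    rw [← divisor_apply, hd, Finsupp.sub_apply, Finsupp.add_apply, Finsupp.single_apply,
      Finsupp.single_apply, Finsupp.single_apply]
  have h2 : Aff W t := fun Q hQ => Or.inr (by
    rw [h1 Q, if_neg (Ne.symm hQ)]
    split_ifs <;> norm_num)
  have h3 : P.comp σ ≠ W := by
    intro h4
    apply no_one hg h2
    rw [h1 W, if_neg hP, if_pos h4, if_pos rfl]
    norm_num
  refine ⟨t, h2, ?_, fun Q => ?_⟩
  · rw [h1 W, if_neg hP, if_neg h3, if_pos rfl]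
    norm_num
  · rw [at_zero_iff]
    constructor
    · rintro (h4 | h4)
      · exact absurd h4 ht
      · by_contra hc
        push Not at hc
        rw [h1 Q, if_neg (Ne.symm hc.1), if_neg (Ne.symm hc.2)] at h4
        split_ifs at h4 <;> omega
    · intro h4
      right
      rcases h4 with rfl | rfl
      · rw [h1 Q, if_pos rfl, if_neg (Ne.symm hP)]
        split_ifs <;> norm_num
      · rw [h1 (P.comp σ), if_pos rfl, if_neg (Ne.symm h3)]
        split_ifs <;> norm_num

lemma exists_x {σ : K ≃ₐ[k] K} {W : Place k K} (hg : IsGenus k K 2) (h : Hyperelliptic σ W) :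
    ∃ x : K, Aff W x ∧ W.ord x = -2 := by
  obtain ⟨P, hP⟩ := exists_ne W
  obtain ⟨t, h1, h2, -⟩ := exists_t hg h hP
  exact ⟨t, h1, h2⟩

/-- The degree over `k(x)`. -/
lemma finrank_two {W : Place k K} {x : K} (hx : Aff W x) (ox : W.ord x = -2) :
    finrank (IntermediateField.adjoin k {x}) K = 2 := by
  obtain ⟨S, h1, h3⟩ := FF.poles (tr_of_ord ox)
  have hS : S = {W} := by
    ext P
    rw [h1, Finset.mem_singleton]
    constructor
    · intro h2
      by_contra hne
      have := (P.reg_iff (ne_zero_of_ord (P := W) (by omega))).1 (hx P hne)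
      omega
    · rintro rfl
      omega
  rw [hS, Finset.sum_singleton, SF.deg_eq_one, ox] at h3
  rw [← h3]
  norm_num
  rfl

open IntermediateField in
/-- `x` and a function with a pole of odd order generate the function field. -/
lemma gen_top {W : Place k K} {x y : K} (hx : Aff W x) (ox : W.ord x = -2) (oy : W.ord y = -5) :
    IntermediateField.adjoin k {x, y} = ⊤ := by
  have h2 := finrank_two hx ox
  have hsim : IsSimpleOrder (IntermediateField k⟮x⟯ K) :=
    IntermediateField.isSimpleOrder_of_finrank_prime _ _ (by rw [h2]; exact Nat.prime_two)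
  have h3 : IntermediateField.adjoin k⟮x⟯ {y} = ⊤ := by
    rcases hsim.eq_bot_or_eq_top (IntermediateField.adjoin k⟮x⟯ {y}) with h4 | h4
    · exfalso
      have h5 : y ∈ (⊥ : IntermediateField k⟮x⟯ K) := by
        rw [← h4]
        exact mem_adjoin_simple_self k⟮x⟯ y
      obtain ⟨z, hz⟩ := IntermediateField.mem_bot.1 h5
      have h6 : y ∈ k⟮x⟯ := by
        rw [← hz]
        exact z.2
      obtain ⟨r, s, hrs⟩ := IntermediateField.mem_adjoin_simple_iff k y |>.1 h6
      have hy0 := ne_zero_of_ord (P := W) (u := y) (by omega)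
      have hr : r ≠ 0 := by
        rintro rfl
        rw [map_zero, zero_div] at hrs
        exact hy0 hrs
      have hs : s ≠ 0 := by
        rintro rfl
        rw [map_zero, div_zero] at hrs
        exact hy0 hrs
      have h7 := congrArg W.ord hrs
      rw [W.ord_div (aeval_ne_zero ox hr) (aeval_ne_zero ox hs), ord_aeval ox hr,
        ord_aeval ox hs, oy] at h7
      omega
    · exact h4
  have h4 : (IntermediateField.adjoin k⟮x⟯ {y}).restrictScalars k = ⊤ := by
    rw [h3, IntermediateField.restrictScalars_top]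
  rw [IntermediateField.adjoin_adjoin_left] at h4
  rw [← h4]
  rfl

/-- The equation. -/
theorem exists_eq (hg : IsGenus k K 2) {W : Place k K} {x : K} (hx : Aff W x)
    (ox : W.ord x = -2) : ∃ (f : k[X]) (y : K), Aff W y ∧ W.ord y = -5 ∧ y ^ 2 = aeval x f ∧
      f.natDegree = 5 ∧ f.Separable := by
  obtain ⟨z, hz, oz⟩ := exists_five hg hx ox
  obtain ⟨A, B, hAB⟩ := repr hg hx ox hz oz (hz.pow 2)
  have hz0 := ne_zero_of_ord (P := W) (u := z) (by omega)
  have hz2 : W.ord (z ^ 2) = -10 := by rw [W.ord_pow, oz]; norm_num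
  have hA : A ≠ 0 := by
    rintro rfl
    rw [map_zero, zero_add] at hAB
    rw [hAB] at hz2
    have hB : B ≠ 0 := by
      rintro rfl
      rw [map_zero, zero_mul, W.ord_zero] at hz2
      omega
    rw [W.ord_mul (aeval_ne_zero ox hB) hz0, ord_aeval ox hB, oz] at hz2
    omega
  -- the degree of `B`
  have hB : aeval x B = 0 ∨ -4 ≤ W.ord (aeval x B) := by
    by_cases hB0 : B = 0
    · left; rw [hB0, map_zero]
    · right
      have h1 := ord_aeval ox hB0
      have h2 := ord_aeval ox hA
      have h3 : W.ord (aeval x B * z) = -2 * B.natDegree - 5 := by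
        rw [W.ord_mul (aeval_ne_zero ox hB0) hz0, h1, oz]
        ring
      have h4 : aeval x B * z ≠ 0 := mul_ne_zero (aeval_ne_zero ox hB0) hz0
      rcases lt_trichotomy (W.ord (aeval x A)) (W.ord (aeval x B * z)) with h5 | h5 | h5
      · have h6 := (W.ord_add_eq (aeval_ne_zero ox hA) h4 h5).2
        rw [← hAB] at h6
        omega
      · omega
      · have h6 := (W.ord_add_eq h4 (aeval_ne_zero ox hA) h5).2
        rw [add_comm, ← hAB] at h6
        omega
  set y : K := z - algebraMap k K 2⁻¹ * aeval x B with hy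
  have hyA : Aff W y := hz.sub ((aff_const W _).mul (hx.aeval B))
  have h20 : algebraMap k K 2⁻¹ ≠ 0 := by simp
  have hyo : W.ord y = -5 := by
    rcases hB with hB | hB
    · rw [hy, hB, mul_zero, sub_zero, oz]
    · by_cases hB0 : aeval x B = 0
      · rw [hy, hB0, mul_zero, sub_zero, oz]
      · have h1 : W.ord (-(algebraMap k K 2⁻¹ * aeval x B)) = W.ord (aeval x B) := by
          rw [W.ord_neg, W.ord_mul h20 hB0, W.ord_const (by simp), zero_add]
        have h2 := (W.ord_add_eq hz0 (neg_ne_zero.2 (mul_ne_zero h20 hB0)) (by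
          rw [h1, oz]; omega)).2
        rw [← sub_eq_add_neg] at h2
        rw [hy, h2, oz]
  have e2 : (algebraMap k K 2⁻¹) * 2 = 1 := by
    have : (2 : K) = algebraMap k K 2 := (map_ofNat _ 2).symm
    rw [this, ← map_mul]
    norm_num
  have hf : y ^ 2 = aeval x (A + C (2⁻¹ * 2⁻¹) * B ^ 2) := by
    rw [map_add, map_mul, map_pow, aeval_C, map_mul, hy]
    linear_combination hAB - aeval x B * z * e2
  have hf0 : A + C (2⁻¹ * 2⁻¹) * B ^ 2 ≠ 0 := by
    intro h0
    rw [h0, map_zero] at hf
    have := pow_eq_zero_iff (two_ne_zero) |>.1 hf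
    exact ne_zero_of_ord (P := W) (u := y) (by omega) this
  refine ⟨_, y, hyA, hyo, hf, ?_, ?_⟩
  · have h1 := congrArg W.ord hf
    rw [W.ord_pow, hyo, ord_aeval ox hf0] at h1
    push_cast at h1
    omega
  · rw [PerfectField.separable_iff_squarefree]
    intro p hp
    by_contra hu
    have hp0 : p ≠ 0 := by
      rintro rfl
      rw [mul_zero] at hp
      exact hf0 (zero_dvd_iff.1 hp)
    obtain ⟨a, ha⟩ : ∃ a, p.IsRoot a := by
      apply IsAlgClosed.exists_root
      intro h0
      exact hu (isUnit_iff_degree_eq_zero.2 h0)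
    obtain ⟨g, hg'⟩ : (X - C a) * (X - C a) ∣ A + C (2⁻¹ * 2⁻¹) * B ^ 2 :=
      (mul_dvd_mul (dvd_iff_isRoot.2 ha) (dvd_iff_isRoot.2 ha)).trans hp
    rw [hg', map_mul, map_mul, map_sub, aeval_X, aeval_C] at hf
    have hxa := sub_ne ox a
    have hu2 : (y / (x - algebraMap k K a)) ^ 2 = aeval x g := by
      rw [div_pow, hf]
      field_simp
    have hy0 := ne_zero_of_ord (P := W) (u := y) (by omega)
    refine no_three hg hx ox (u := y / (x - algebraMap k K a)) (fun P hP => Or.inr ?_) ?_
    · have h1 := (P.reg_iff (pow_ne_zero 2 (div_ne_zero hy0 hxa))).1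
        (by rw [hu2]; exact hx.aeval g P hP)
      rw [P.ord_pow] at h1
      push_cast at h1
      omega
    · rw [W.ord_div hy0 hxa, hyo, (ord_sub_const (P := W) (x := x) (by rw [ox]; omega) a).2, ox]
      norm_num

/-- **The equation of a curve of genus two.** -/
theorem exists_crv (hg : IsGenus k K 2) {σ : K ≃ₐ[k] K} {W : Place k K}
    (hσ : Hyperelliptic σ W) : ∃ (f : k[X]) (x y : K), Crv f x y σ W := by
  classical
  obtain ⟨x, hx, ox⟩ := exists_x hg hσ
  obtain ⟨f, y, hy, oy, hf, hd, hs⟩ := exists_eq hg hx ox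
  have hdbl : Dbl k f x y := ⟨tr_of_ord ox, hf, gen_top hx ox oy⟩
  have hdpos : 0 < f.natDegree := by omega
  have hx0 : x ≠ 0 := ne_zero_of_ord (P := W) (by omega)
  have hneW : ∀ {P : Place k K} {a : k}, At P x a → P ≠ W := by
    intro P a ha
    rintro rfl
    have := (P.reg_iff hx0).1 ha.1
    omega
  -- the zeros of the functions `t`
  have hcomp : ∀ {P Q : Place k K} {a : k}, At P x a →
      (At Q x a ↔ (Q = P ∨ Q = P.comp σ)) := by
    intro P Q a ha
    obtain ⟨t, h1, h2, h3⟩ := exists_t hg hσ (hneW ha)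
    obtain ⟨c, d, hcd⟩ := two hg hx ox h1 (Or.inr h2.ge)
    have hc : c ≠ 0 := by
      rintro rfl
      rw [map_zero, zero_mul, zero_add] at hcd
      by_cases hd0 : d = 0
      · rw [hcd, hd0, map_zero, W.ord_zero] at h2
        omega
      · rw [hcd, W.ord_const hd0] at h2
        omega
    have h4 : At P t (c * a + d) := by
      rw [hcd]
      exact ((at_const P c).mul ha).add (at_const P d)
    have h5 : c * a + d = 0 := h4.unique ((h3 P).2 (Or.inl rfl))
    rw [← h3 Q]
    constructor
    · intro h6
      have h7 : At Q t (c * a + d) := by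
        rw [hcd]
        exact ((at_const Q c).mul h6).add (at_const Q d)
      rwa [h5] at h7
    · intro h6
      have h7 : x = algebraMap k K c⁻¹ * (t - algebraMap k K d) := by
        have e : algebraMap k K c⁻¹ * algebraMap k K c = 1 := by
          rw [← map_mul, inv_mul_cancel₀ hc, map_one]
        rw [hcd]
        linear_combination -x * e
      have h8 := (at_const Q c⁻¹).mul (h6.sub (at_const Q d))
      rw [← h7] at h8
      have h9 : c⁻¹ * (0 - d) = a := by
        field_simp
        linear_combination -h5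
      rwa [h9] at h8
  -- `σ x = x`
  have hsx : σ x = x := by
    by_contra hne
    have hne' : σ x - x ≠ 0 := sub_ne_zero.2 hne
    have h1 : ∀ (P : Place k K) (a : k), At P x a → P ∈ (divisor k (σ x - x)).support := by
      intro P a ha
      have h2 : At (P.comp σ) x a := (hcomp ha).2 (Or.inr rfl)
      rw [at_comp] at h2
      have h3 := h2.sub ha
      rw [sub_self, at_zero_iff] at h3
      rw [Finsupp.mem_support_iff, divisor_apply]
      have := h3.resolve_left hne'
      omega
    choose g hg1 using fun a : k => (hdbl.zeros a).choose_spec.2.1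
    have hgx : ∀ a, At (g a) x a := fun a => ((hdbl.zeros a).choose_spec.1 (g a)).1 (hg1 a)
    have hinj : Function.Injective g := by
      intro a b hab
      have h2 := hgx a
      rw [hab] at h2
      exact h2.unique (hgx b)
    have hfin : (Set.range g).Finite := (Finset.finite_toSet _).subset (by
      rintro _ ⟨a, rfl⟩
      exact h1 (g a) a (hgx a))
    exact Set.infinite_range_of_injective hinj hfin
  -- `σ y = - y`
  have hsy : σ y = -y := by
    have h1 : (σ y) ^ 2 = y ^ 2 := by
      rw [← map_pow, hf]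
      have : σ (aeval x f) = aeval (σ x) f :=
        (Polynomial.aeval_algHom_apply (σ : K →ₐ[k] K) x f).symm
      rw [this, hsx]
    rcases sq_eq_sq_iff_eq_or_eq_neg.1 h1 with h2 | h2
    · exfalso
      have hf0 : f ≠ 0 := by
        rintro rfl
        rw [natDegree_zero] at hd
        omega
      obtain ⟨a, ha⟩ : ∃ a : k, f.eval a ≠ 0 := by
        by_contra hc
        push Not at hc
        exact hf0 (Polynomial.funext (fun r => by rw [hc r, eval_zero]))
      obtain ⟨b, hb⟩ : ∃ b : k, b ^ 2 = f.eval a :=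
        IsAlgClosed.exists_pow_nat_eq _ (n := 2) (by norm_num)
      have hb0 : b ≠ 0 := by
        rintro rfl
        apply ha
        rw [← hb]
        ring
      obtain ⟨P, hP1, hP2⟩ := hdbl.exists_at hs hdpos hb
      obtain ⟨Q, hQ1, hQ2⟩ := hdbl.exists_at hs hdpos (a := a) (b := -b) (by rw [neg_sq, hb])
      have h3 : P.comp σ = P := hdbl.eq_of_at hs hdpos hP1 hP2
        ((at_comp σ).2 (by rw [hsx]; exact hP1)) ((at_comp σ).2 (by rw [h2]; exact hP2))
      have h4 := (hcomp hP1).1 hQ1
      rw [h3] at h4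
      have h5 : Q = P := by rcases h4 with h4 | h4 <;> exact h4
      rw [h5] at hQ2
      have h6 := hP2.unique hQ2
      apply hb0
      have h7 : (2 : k) * b = 0 := by linear_combination h6
      exact (mul_eq_zero.1 h7).resolve_left two_ne_zero
    · exact h2
  exact ⟨f, x, y, hdbl, hs, hd, hsx, hsy, ox, oy, hx, fun u hu => repr hg hx ox hy oy hu⟩

end

end Pool.Agent.H834.KJ
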