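import Pool.Agent.H834.KJ.Model

/-!
# Classes of degree zero on a curve of genus two are sums of two points
-/

set_option autoImplicit false
set_option linter.unusedSectionVars false
set_option linter.unusedVariables false

namespace Pool.Agent.H834.KJ

open FF Polynomial Module Pool.Agent.Q70.CH Pool.Agent.Q70.KM Pool.Agent.H834.E

/-! ### Small multisets -/

section

variable {A : Type}

lemma two_eq {a b c d : A} (h : (Finsupp.single a 1 + Finsupp.single b 1 : A →₀ ℤ) =
    Finsupp.single c 1 + Finsupp.single d 1) : (a = c ∧ b = d) ∨ (a = d ∧ b = c) := by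
  classical
  have h1 : a = c ∨ a = d := by
    by_contra hc
    push Not at hc
    have := congrArg (fun F : A →₀ ℤ => F a) h
    simp only [Finsupp.add_apply, Finsupp.single_apply, if_true, if_neg (Ne.symm hc.1),
      if_neg (Ne.symm hc.2)] at this
    split_ifs at this <;> omega
  rcases h1 with h1 | h1
  · subst h1
    left
    exact ⟨rfl, Finsupp.single_left_injective one_ne_zero (add_left_cancel h)⟩
  · subst h1
    right
    rw [add_comm (Finsupp.single c 1)] at h
    exact ⟨rfl, Finsupp.single_left_injective one_ne_zero (add_left_cancel h)⟩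

lemma three_eq {s : A → A} (hs : ∀ a, s (s a) = a) {c₁ c₂ d₁ d₂ X : A}
    (h : (Finsupp.single c₂ 1 + Finsupp.single (s d₁) 1 + Finsupp.single (s d₂) 1 : A →₀ ℤ) =
    Finsupp.single (s c₁) 1 + (Finsupp.single X 1 + Finsupp.single (s X) 1)) :
    c₂ = s c₁ ∨ (c₁ = d₁ ∧ c₂ = d₂) ∨ (c₁ = d₂ ∧ c₂ = d₁) := by
  classical
  have hinj : Function.Injective s := fun a b hab => by rw [← hs a, hab, hs]
  have h1 : c₂ = s c₁ ∨ s d₁ = s c₁ ∨ s d₂ = s c₁ := by
    by_contra hc
    push Not at hc
    have := congrArg (fun F : A →₀ ℤ => F (s c₁)) h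
    simp only [Finsupp.add_apply, Finsupp.single_apply, if_true, if_neg hc.1, if_neg hc.2.1,
      if_neg hc.2.2] at this
    split_ifs at this <;> omega
  rcases h1 with h1 | h1 | h1
  · exact Or.inl h1
  · right; left
    have h2 := hinj h1
    subst h2
    have h3 : (Finsupp.single c₂ 1 + Finsupp.single (s d₂) 1 : A →₀ ℤ) =
        Finsupp.single X 1 + Finsupp.single (s X) 1 := by
      apply add_left_cancel (a := Finsupp.single (s d₁) (1 : ℤ))
      rw [← h]
      abel
    rcases two_eq h3 with ⟨e1, e2⟩ | ⟨e1, e2⟩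
    · exact ⟨rfl, by rw [e1, hinj e2]⟩
    · exact ⟨rfl, by rw [e1, ← e2, hs]⟩
  · right; right
    have h2 := hinj h1
    subst h2
    have h3 : (Finsupp.single c₂ 1 + Finsupp.single (s d₁) 1 : A →₀ ℤ) =
        Finsupp.single X 1 + Finsupp.single (s X) 1 := by
      apply add_left_cancel (a := Finsupp.single (s d₂) (1 : ℤ))
      rw [← h]
      abel
    rcases two_eq h3 with ⟨e1, e2⟩ | ⟨e1, e2⟩
    · exact ⟨rfl, by rw [e1, hinj e2]⟩
    · exact ⟨rfl, by rw [e1, ← e2, hs]⟩

lemma four_eq {s : A → A} (hs : ∀ a, s (s a) = a) {c₁ c₂ d₁ d₂ R T : A}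
    (h : (Finsupp.single c₁ 1 + Finsupp.single c₂ 1 + Finsupp.single (s d₁) 1 +
      Finsupp.single (s d₂) 1 : A →₀ ℤ) =
    Finsupp.single R 1 + Finsupp.single (s R) 1 + (Finsupp.single T 1 + Finsupp.single (s T) 1)) :
    c₂ = s c₁ ∨ (c₁ = d₁ ∧ c₂ = d₂) ∨ (c₁ = d₂ ∧ c₂ = d₁) := by
  classical
  have h1 : c₁ = R ∨ c₁ = s R ∨ c₁ = T ∨ c₁ = s T := by
    by_contra hc
    push Not at hc
    have := congrArg (fun F : A →₀ ℤ => F c₁) h
    simp only [Finsupp.add_apply, Finsupp.single_apply, if_true, if_neg (Ne.symm hc.1),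
      if_neg (Ne.symm hc.2.1), if_neg (Ne.symm hc.2.2.1), if_neg (Ne.symm hc.2.2.2)] at this
    split_ifs at this <;> omega
  rcases h1 with rfl | rfl | rfl | rfl
  · refine three_eq hs (X := T) (add_left_cancel (a := Finsupp.single c₁ (1 : ℤ)) ?_)
    rw [← add_assoc, ← add_assoc, ← add_assoc, h]
  · refine three_eq hs (X := T) (add_left_cancel (a := Finsupp.single (s R) (1 : ℤ)) ?_)
    rw [← add_assoc, ← add_assoc, h, hs]
    abel
  · refine three_eq hs (X := R) (add_left_cancel (a := Finsupp.single c₁ (1 : ℤ)) ?_)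
    rw [← add_assoc, ← add_assoc, h]
    abel
  · refine three_eq hs (X := R) (add_left_cancel (a := Finsupp.single (s T) (1 : ℤ)) ?_)
    rw [← add_assoc, ← add_assoc, h, hs]
    abel

end

section

variable {k : Type} [Field k] [CharZero k] [IsAlgClosed k] {K : Type} [Field K] [Algebra k K]
  [IsFF k K]

/-! ### Effective divisors -/

lemma eff_pos {E : Place k K →₀ ℤ} (h : 0 ≤ E) (hE : E ≠ 0) :
    ∃ P : Place k K, 0 ≤ E - Finsupp.single P 1 := by
  classical
  obtain ⟨P, hP⟩ : ∃ P, E P ≠ 0 := by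
    by_contra hc
    push Not at hc
    exact hE (Finsupp.ext hc)
  refine ⟨P, fun Q => ?_⟩
  have h1 : 0 ≤ E Q := h Q
  have h2 : 0 ≤ E P := h P
  rw [Finsupp.sub_apply, Finsupp.single_apply]
  change (0 : ℤ) ≤ _
  split_ifs with hPQ
  · subst hPQ
    omega
  · omega

lemma eff_zero {E : Place k K →₀ ℤ} (h : 0 ≤ E) (hd : ddeg E = 0) : E = 0 := by
  by_contra hE
  obtain ⟨P, hP⟩ := eff_pos h hE
  have h1 := ddeg_nonneg hP
  rw [ddeg_sub, hd, ddeg_W] at h1
  omega

lemma eff_two {E : Place k K →₀ ℤ} (h : 0 ≤ E) (hd : ddeg E = 2) :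
    ∃ P Q : Place k K, E = Finsupp.single P 1 + Finsupp.single Q 1 := by
  obtain ⟨P, hP⟩ := eff_pos h (by
    rintro rfl
    rw [ddeg_zero] at hd
    omega)
  obtain ⟨Q, hQ⟩ := eff_pos hP (by
    intro h0
    have := ddeg_sub E (Finsupp.single P 1)
    rw [h0, ddeg_zero, hd, ddeg_W] at this
    omega)
  refine ⟨P, Q, ?_⟩
  have h1 := eff_zero hQ (by
    rw [ddeg_sub, ddeg_sub, hd, ddeg_W, ddeg_W]
    norm_num)
  rw [sub_sub] at h1
  exact sub_eq_zero.1 h1

lemma single_two (W : Place k K) :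
    (Finsupp.single W 2 : Place k K →₀ ℤ) = Finsupp.single W 1 + Finsupp.single W 1 := by
  rw [← Finsupp.single_add]; rfl

/-- Every class of degree zero is the class of `P + Q - 2 W`. -/
theorem exists_pair (hg : IsGenus k K 2) (W : Place k K) {D : Place k K →₀ ℤ}
    (hD : ddeg D = 0) : ∃ P Q : Place k K, cz D = dz W P + dz W Q := by
  have h1 : ddeg (D + Finsupp.single W 2) = 2 := by
    rw [ddeg_add, hD, ddeg_W, zero_add]
  have h2 := riemann_ineq hg (D + Finsupp.single W 2)
  rw [h1] at h2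
  obtain ⟨u, hu, hu0⟩ := exists_ne_zero_of_ell_pos (D := D + Finsupp.single W 2) (by
    push_cast at h2
    omega)
  rw [mem_LL' hu0] at hu
  obtain ⟨P, Q, hPQ⟩ := eff_two hu (by rw [ddeg_add, ddeg_divisor, h1, zero_add])
  refine ⟨P, Q, ?_⟩
  have h3 := congrArg (cz (k := k) (K := K)) hPQ
  have h4 : cz (divisor k u) = 0 := cz_eq_zero.2 ⟨u, hu0, rfl⟩
  rw [map_add, map_add, h4, zero_add, single_two, map_add, map_add] at h3
  unfold dz
  rw [eq_sub_of_add_eq h3]
  abel

namespace Crv

variable {f : k[X]} {x y : K} {σ : K ≃ₐ[k] K} {W : Place k K}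

lemma deg (E : Crv f x y σ W) : 0 < f.natDegree := by rw [E.deg5]; norm_num

lemma x_ne (E : Crv f x y σ W) : x ≠ 0 := ne_zero_of_ord (P := W) (by rw [E.ox]; norm_num)

lemma y_ne (E : Crv f x y σ W) : y ≠ 0 := ne_zero_of_ord (P := W) (by rw [E.oy]; norm_num)

lemma ne_W (E : Crv f x y σ W) {P : Place k K} {a : k} (h : At P x a) : P ≠ W := by
  rintro rfl
  have := (P.reg_iff E.x_ne).1 h.1
  rw [E.ox] at this
  omega

lemma cases (E : Crv f x y σ W) (P : Place k K) :
    P = W ∨ ∃ a b, At P x a ∧ At P y b ∧ b ^ 2 = f.eval a := by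
  by_cases h : P = W
  · exact Or.inl h
  · right
    obtain ⟨a, ha⟩ := exists_at (E.reg P h)
    obtain ⟨b, hb, he⟩ := E.h.y_at ha
    exact ⟨a, b, ha, hb, he⟩

lemma exists_pt (E : Crv f x y σ W) {a b : k} (h : b ^ 2 = f.eval a) :
    ∃ P : Place k K, At P x a ∧ At P y b :=
  E.h.exists_at E.sep E.deg h

lemma ext (E : Crv f x y σ W) {P P' : Place k K} {a b : k} (ha : At P x a) (hb : At P y b)
    (ha' : At P' x a) (hb' : At P' y b) : P = P' :=
  E.h.eq_of_at E.sep E.deg ha' hb' ha hb

lemma comp_x (E : Crv f x y σ W) {P : Place k K} {a : k} (ha : At P x a) :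
    At (P.comp σ) x a := by rw [at_comp, E.sx]; exact ha

lemma comp_y (E : Crv f x y σ W) {P : Place k K} {b : k} (hb : At P y b) :
    At (P.comp σ) y (-b) := by rw [at_comp, E.sy]; exact hb.neg

lemma comp_W (E : Crv f x y σ W) : W.comp σ = W := by
  by_contra hne
  have h1 := (Place.reg_iff _ E.x_ne).1 (E.reg _ hne)
  have h2 : (W.comp σ).ord x = W.ord (σ x) := rfl
  rw [h2, E.sx, E.ox] at h1
  omega

lemma comp_comp (E : Crv f x y σ W) (P : Place k K) : (P.comp σ).comp σ = P := by
  rcases E.cases P with rfl | ⟨c, d, hc, hd, -⟩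
  · rw [E.comp_W, E.comp_W]
  · have h4 := E.comp_y (E.comp_y hd)
    rw [neg_neg] at h4
    exact E.ext (E.comp_x (E.comp_x hc)) h4 hc hd

lemma ord_x (E : Crv f x y σ W) {Q : Place k K} {a b : k} (ha : At Q x a) (hb : At Q y b) :
    (b = 0 → Q.ord (x - algebraMap k K a) = 2) ∧ (b ≠ 0 → Q.ord (x - algebraMap k K a) = 1) :=
  (E.h.over E.sep E.sx E.sy ha hb Q ha).2

lemma ord_x_ne (E : Crv f x y σ W) {Q : Place k K} {a a' : k} (ha : At Q x a) (hne : a ≠ a') :
    Q.ord (x - algebraMap k K a') = 0 := by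
  have h1 := ha.sub (at_const Q a')
  exact h1.ord_eq_zero (sub_ne_zero.2 hne)

/-- the divisor of `x - a` -/
lemma div_x (E : Crv f x y σ W) {P : Place k K} {a b : k} (ha : At P x a) (hb : At P y b) :
    divisor k (x - algebraMap k K a) =
      Finsupp.single P 1 + Finsupp.single (P.comp σ) 1 - Finsupp.single W 2 := by
  classical
  ext Q
  rw [divisor_apply, Finsupp.sub_apply, Finsupp.add_apply, Finsupp.single_apply,
    Finsupp.single_apply, Finsupp.single_apply]
  by_cases hQ : Q = W
  · subst hQ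
    have h1 := E.ne_W ha
    have h2 := E.ne_W (E.comp_x ha)
    rw [if_neg h1, if_neg h2, if_pos rfl]
    have := (ord_sub_const (P := Q) (x := x) (by rw [E.ox]; omega) a).2
    rw [this, E.ox]
    norm_num
  · rw [if_neg (Ne.symm hQ), sub_zero]
    obtain ⟨c, d, hc, hd, -⟩ := (E.cases Q).resolve_left hQ
    by_cases hca : c = a
    · subst hca
      have h1 := (E.h.over E.sep E.sx E.sy ha hb Q hc).1
      by_cases hb0 : b = 0
      · subst hb0
        have h2 : P.comp σ = P := by
          have := E.comp_y hb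
          rw [neg_zero] at this
          exact E.ext (E.comp_x ha) this ha hb
        rw [h2] at h1 ⊢
        have h3 : Q = P := by rcases h1 with h1 | h1 <;> exact h1
        subst h3
        rw [if_pos rfl, (E.ord_x ha hb).1 rfl]
        norm_num
      · have h2 : P.comp σ ≠ P := by
          intro h2
          have := E.comp_y hb
          rw [h2] at this
          have h3 := hb.unique this
          apply hb0
          have h4 : (2 : k) * b = 0 := by linear_combination h3
          exact (mul_eq_zero.1 h4).resolve_left two_ne_zero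
        rcases h1 with h1 | h1
        · subst h1
          rw [if_pos rfl, if_neg h2, (E.ord_x ha hb).2 hb0]
          norm_num
        · rw [h1, if_neg (Ne.symm h2), if_pos rfl,
            (E.ord_x (E.comp_x ha) (E.comp_y hb)).2 (neg_ne_zero.2 hb0)]
          norm_num
    · rw [E.ord_x_ne hc hca, if_neg, if_neg]
      · norm_num
      · intro h1
        have h2 := E.comp_x ha
        rw [h1] at h2
        exact hca (hc.unique h2)
      · intro h1
        rw [h1] at ha
        exact hca (hc.unique ha)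

lemma dz_W (W : Place k K) : dz W W = 0 := sub_self _

lemma dz_neg (E : Crv f x y σ W) (P : Place k K) : dz W P + dz W (P.comp σ) = 0 := by
  rcases E.cases P with rfl | ⟨a, b, ha, hb, -⟩
  · rw [E.comp_W, dz_W, add_zero]
  · have h1 : cz (divisor k (x - algebraMap k K a)) = 0 :=
      cz_eq_zero.2 ⟨_, E.h.xa_ne a, rfl⟩
    rw [E.div_x ha hb, map_sub, map_add, single_two, map_add] at h1
    unfold dz
    rw [← h1]
    abel

/-- one factor of a polynomial in `x` -/
lemma div_step (E : Crv f x y σ W) {n : ℕ} {A : k[X]} (hA : A ≠ 0) (hn : A.natDegree ≤ n + 1) :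
    ∃ (R : Place k K) (A' : k[X]), A' ≠ 0 ∧ A'.natDegree ≤ n ∧ divisor k (aeval x A) =
      (Finsupp.single R 1 + Finsupp.single (R.comp σ) 1 - Finsupp.single W 2) +
        divisor k (aeval x A') := by
  by_cases h0 : A.natDegree = 0
  · refine ⟨W, A, hA, by omega, ?_⟩
    rw [E.comp_W, single_two]
    abel
  · obtain ⟨a, ha⟩ : ∃ a, A.IsRoot a := by
      apply IsAlgClosed.exists_root
      intro h1
      exact h0 (natDegree_eq_zero_iff_degree_le_zero.2 h1.le)
    obtain ⟨A', rfl⟩ := dvd_iff_isRoot.2 ha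
    have hA' : A' ≠ 0 := right_ne_zero_of_mul hA
    obtain ⟨b, hb⟩ : ∃ b : k, b ^ 2 = f.eval a :=
      IsAlgClosed.exists_pow_nat_eq _ (n := 2) (by norm_num)
    obtain ⟨R, hR1, hR2⟩ := E.exists_pt hb
    refine ⟨R, A', hA', ?_, ?_⟩
    · rw [natDegree_mul (X_sub_C_ne_zero a) hA', natDegree_X_sub_C] at hn
      omega
    · rw [map_mul, map_sub, aeval_X, aeval_C, divisor_mul (E.h.xa_ne a)
        (aeval_ne_zero E.ox hA'), E.div_x hR1 hR2]

/-- the divisor of a polynomial of degree at most two in `x` -/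
lemma div_two (E : Crv f x y σ W) {A : k[X]} (hA : A ≠ 0) (hn : A.natDegree ≤ 2) :
    ∃ R T : Place k K, divisor k (aeval x A) =
      (Finsupp.single R 1 + Finsupp.single (R.comp σ) 1 - Finsupp.single W 2) +
        (Finsupp.single T 1 + Finsupp.single (T.comp σ) 1 - Finsupp.single W 2) := by
  obtain ⟨R, A', h1, h2, h3⟩ := E.div_step (n := 1) hA hn
  obtain ⟨T, A'', h4, h5, h6⟩ := E.div_step (n := 0) h1 h2
  refine ⟨R, T, ?_⟩
  obtain ⟨c, rfl⟩ := natDegree_eq_zero.1 (Nat.le_zero.1 h5)
  have h7 : divisor k (aeval x (C c)) = 0 := by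
    ext P
    rw [aeval_C, divisor_apply, P.ord_const (by rintro rfl; exact h4 C_0)]
    rfl
  rw [h3, h6, h7, add_zero]

/-- The functions with a pole of order at most four at `W` only. -/
lemma four (E : Crv f x y σ W) {u : K} (hu0 : u ≠ 0) (hu : Aff W u) (h : -4 ≤ W.ord u) :
    ∃ A : k[X], A ≠ 0 ∧ A.natDegree ≤ 2 ∧ u = aeval x A := by
  obtain ⟨A, B, hAB⟩ := E.int u hu
  have hB : B = 0 := by
    by_contra hB
    have h1 : W.ord (aeval x B * y) = -2 * B.natDegree - 5 := by
      rw [W.ord_mul (aeval_ne_zero E.ox hB) E.y_ne, ord_aeval E.ox hB, E.oy]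
      ring
    have h2 : aeval x B * y ≠ 0 := mul_ne_zero (aeval_ne_zero E.ox hB) E.y_ne
    by_cases hA : A = 0
    · rw [hA, map_zero, zero_add] at hAB
      rw [hAB, h1] at h
      omega
    · have h3 := ord_aeval E.ox hA
      have h4 := aeval_ne_zero E.ox hA
      rcases lt_trichotomy (W.ord (aeval x A)) (W.ord (aeval x B * y)) with h5 | h5 | h5
      · have h6 := (W.ord_add_eq h4 h2 h5).2
        rw [← hAB] at h6
        omega
      · omega
      · have h6 := (W.ord_add_eq h2 h4 h5).2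
        rw [add_comm, ← hAB] at h6
        omega
  subst hB
  rw [map_zero, zero_mul, add_zero] at hAB
  have hA : A ≠ 0 := by
    rintro rfl
    rw [map_zero] at hAB
    exact hu0 hAB
  refine ⟨A, hA, ?_, hAB⟩
  rw [hAB, ord_aeval E.ox hA] at h
  omega

/-- **Uniqueness.** A nonzero class is the class of `P + Q - 2 W` for only one pair of points. -/
theorem pair_unique (E : Crv f x y σ W) {P Q P' Q' : Place k K}
    (h : dz W P + dz W Q = dz W P' + dz W Q') (hne : dz W P + dz W Q ≠ 0) :
    (P = P' ∧ Q = Q') ∨ (P = Q' ∧ Q = P') := by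
  classical
  have h1 : cz (Finsupp.single P 1 + Finsupp.single Q 1 + Finsupp.single (P'.comp σ) 1 +
      Finsupp.single (Q'.comp σ) 1 - (Finsupp.single W 2 + Finsupp.single W 2) :
      Place k K →₀ ℤ) = 0 := by
    have h2 := E.dz_neg P'
    have h3 := E.dz_neg Q'
    have h4 : dz W P + dz W Q + dz W (P'.comp σ) + dz W (Q'.comp σ) = 0 := by
      rw [h]
      have : dz W P' + dz W Q' + dz W (P'.comp σ) + dz W (Q'.comp σ) =
        (dz W P' + dz W (P'.comp σ)) + (dz W Q' + dz W (Q'.comp σ)) := by abel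
      rw [this, h2, h3, add_zero]
    rw [← h4, single_two, map_sub, map_add, map_add, map_add, map_add, map_add]
    unfold dz
    abel
  obtain ⟨u, hu, h2⟩ := cz_eq_zero.1 h1
  have hord : ∀ R : Place k K, R.ord u = (if P = R then 1 else 0) +
      (if Q = R then 1 else 0) + (if P'.comp σ = R then 1 else 0) +
      (if Q'.comp σ = R then 1 else 0) - ((if W = R then 2 else 0) + (if W = R then 2 else 0)) := by
    intro R
    rw [← divisor_apply, ← h2]
    simp only [Finsupp.sub_apply, Finsupp.add_apply, Finsupp.single_apply]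
  obtain ⟨A, hA, hdA, rfl⟩ := E.four hu (by
    intro R hR
    right
    rw [hord, if_neg (Ne.symm hR)]
    split_ifs <;> norm_num) (by
    rw [hord, if_pos rfl]
    split_ifs <;> norm_num)
  obtain ⟨R, T, h3⟩ := E.div_two hA hdA
  rw [h3] at h2
  have h4 : (Finsupp.single P 1 + Finsupp.single Q 1 + Finsupp.single (P'.comp σ) 1 +
      Finsupp.single (Q'.comp σ) 1 : Place k K →₀ ℤ) =
      Finsupp.single R 1 + Finsupp.single (R.comp σ) 1 +
        (Finsupp.single T 1 + Finsupp.single (T.comp σ) 1) := by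
    rw [sub_eq_iff_eq_add.1 h2]
    abel
  rcases four_eq (s := fun P : Place k K => P.comp σ) E.comp_comp h4 with h5 | h5 | h5
  · exfalso
    apply hne
    have h6 : Q = P.comp σ := h5
    rw [h6]
    exact E.dz_neg P
  · exact Or.inl h5
  · exact Or.inr h5

lemma dif_neg (E : Crv f x y σ W) (P : Place k K) : dif W (P.comp σ) = - dif W P := by
  have h := congrArg (toQ (k := k) (K := K)) (E.dz_neg P)
  rw [map_add, map_zero, toQ_dz, toQ_dz, add_comm] at h
  exact eq_neg_of_add_eq_zero_left h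

end Crv

end

end Pool.Agent.H834.KJ
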